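import Pool.Agent.H837.AJ.Main

/-!
# The comparison of the Abel–Jacobi kernels with the second step of the filtration
-/

open CategoryTheory CategoryTheory.Limits AlgebraicGeometry Polynomial
open Pool.Agent.H914 Pool.Agent.H914.VarClass Pool.Agent.H914.VarClass.Obj Pool.Agent.R903
open Pool.Agent.T6.H15.BB

universe u v w u' v' w' t

namespace Pool.Agent.H837.AJ

section Base

variable {k : Type u} [Field k] {𝒱 : VarClass k} {C : ChowTheory.{u, v} 𝒱}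
  {W : WeilTheory.{u, v, w} C}

/-- the properties of the filtration over the small field which are used -/
structure Weak (W : WeilTheory.{u, v, w} C) (F : Family C) : Prop where
  zero : ∀ (X : 𝒱.Obj) (j : ℕ) (x : C.CH X), x ∈ F X j 0 ↔ x ∈ C.gr X j
  one : ∀ (X : 𝒱.Obj) (j : ℕ) (x : C.CH X), x ∈ F X j 1 ↔ x ∈ C.gr X j ∧ W.cl X x = 0
  top : ∀ (X : 𝒱.Obj) (j : ℕ) (x : C.CH X), x ∈ F X j (j + 1) → x = 0
  anti : ∀ (X : 𝒱.Obj) (j r : ℕ), F X j (r + 1) ≤ F X j r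
  motivic : ∀ (X : 𝒱.Obj) (j m r : ℕ), m + r = 2 * j → ∀ γ ∈ C.gr (X.prod X) X.dim,
    (∀ v ∈ W.gr X m, W.act γ v = 0) → ∀ x ∈ F X j r, C.act γ x ∈ F X j (r + 1)

lemma IsBBAJ.weak {N : Kernels C} {F : Family C} (h : IsBBAJ W N F) : Weak W F where
  zero X j x := h.zero X j x
  one X j x := h.one X j x
  top X j x hx := h.top X j x hx
  anti X j r := h.anti X j r
  motivic X j m r hm γ hγ h0 x hx := h.motivic X X γ j j m r x ⟨X.dim, rfl, hγ⟩ hm h0 hx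

lemma Weak.anti' {F : Family C} (h : Weak W F) (X : 𝒱.Obj) (j : ℕ) {r s : ℕ} (hrs : r ≤ s) :
    F X j s ≤ F X j r := by
  induction s, hrs using Nat.le_induction with
  | base => exact le_rfl
  | succ s _ ih => exact (h.anti X j s).trans ih

/-- The complement of the projector onto the classes which come from the boundary. -/
lemma exists_compl (hR : Jan.HomEqNum W) {Y : 𝒱.Obj} (Φ : MorClass Y) :
    ∃ q ∈ C.gr (Y.prod Y) Y.dim, (∀ v ∈ pushH W Φ, W.act q v = 0) ∧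
      (∀ z, z - C.act q z ∈ pushCH C Φ) := by
  obtain ⟨p, hp, h1, h2⟩ := exists_projector' hR Φ
  refine ⟨C.diagC Y - p, Submodule.sub_mem _ (C.diagC_mem Y) hp, fun v hv => ?_, fun z => ?_⟩
  · rw [W.act_sub, LinearMap.sub_apply, W.act_diagC, h1 v hv, sub_self]
  · rw [C.act_sub, LinearMap.sub_apply, C.act_diagC, sub_sub_cancel]
    exact h2 z

end Base

section Extension

variable {k₀ : Type u} [Field k₀] {𝒱₀ : VarClass k₀} {C₀ : ChowTheory.{u, v} 𝒱₀}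
  {W₀ : WeilTheory.{u, v, w} C₀} {N₀ : Kernels C₀}
  {K : Type u'} [Field K] {𝒱 : VarClass K} {C : ChowTheory.{u', v'} 𝒱}
  {W : WeilTheory.{u', v', w'} C} {N : Kernels C}
  {X : 𝒱.Obj} {Y : 𝒱₀.Obj} {Φ : MorClass Y} {j : ℕ} {δ : (ofVariety W N X).G} {x : C.CH X}
  {S : Spread (ofVariety W₀ N₀ Y) (ofVariety W N X)}

/-- a spread of a degree operator -/
structure SpreadDeg (W₀ : WeilTheory.{u, v, w} C₀) (N₀ : Kernels C₀) (W : WeilTheory.{u', v', w'} C)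
    (N : Kernels C) (j : ℕ) (δ : (ofVariety W N X).G) (x : C.CH X) (Φ : MorClass Y)
    (S : Spread (ofVariety W₀ N₀ Y) (ofVariety W N X)) : Prop where
  spread : IsSpreadOf W₀ N₀ W N j δ x Φ S
  isDeg : (ofVariety W N X).IsDeg δ

variable (hS : SpreadDeg W₀ N₀ W N j δ x Φ S)

include hS

lemma SpreadDeg.isLeray : IsLeray (W₀.gr Y) (pushH W₀ Φ) (W₀.act S.ε.1) S.b S.L :=
  hS.spread.2.leray hS.isDeg

lemma SpreadDeg.res_spread : S.res S.y = x := hS.spread.2.res_y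

lemma SpreadDeg.y_mem : S.y ∈ C₀.gr Y j := hS.spread.2.y_mem

lemma SpreadDeg.res_zero {z : C₀.CH Y} (h : S.res z = 0) : W₀.cl Y z ∈ pushH W₀ Φ :=
  hS.spread.2.res_zero z h

lemma SpreadDeg.class_one (h : W.cl X x = 0) : W₀.cl Y S.y ∈ S.L (2 * j) 1 :=
  hS.spread.2.class_one h

lemma SpreadDeg.jacobian {z : C₀.CH Y} (h : z ∈ C₀.gr Y j) (h0 : W₀.cl Y z = 0)
    (h1 : S.res z ∈ N X j) {γ : C₀.CH (Y.prod Y)} (hγ : γ ∈ C₀.gr (Y.prod Y) Y.dim) {m : ℕ}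
    (hm : m + 1 = 2 * j) (h2 : ∀ v ∈ S.L m 1, W₀.act γ v = 0) : C₀.act γ z ∈ N₀ Y j :=
  hS.spread.2.jacobian z h h0 h1 ⟨γ, hγ⟩ m hm h2

lemma SpreadDeg.res_poly (P : ℚ[X]) (z : C₀.CH Y) :
    S.res (C₀.act (polyC C₀ S.ε.1 P) z) = C.act (polyC C δ.1 P) (S.res z) := by
  rw [act_polyC, act_polyC]
  exact aeval_comm S.res.toLinearMap (C₀.act S.ε.1) (C.act δ.1) hS.spread.2.res_act P z

lemma SpreadDeg.res_eq {z z' : C₀.CH Y} (h : z - z' ∈ pushCH C₀ Φ) : S.res z = S.res z' := by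
  rw [← sub_eq_zero, ← map_sub]
  have hle : pushCH C₀ Φ ≤ LinearMap.ker S.res.toLinearMap := by
    refine Submodule.span_le.2 ?_
    rintro _ ⟨D, f, hf, z, rfl⟩
    exact hS.spread.1 D f hf z
  exact hle h

/-- Eigenvectors of `δ` which come from `F^r` are zero if the eigenvalue is large. -/
lemma SpreadDeg.finish {F : Family C₀} (hF : Weak W₀ F)
    (hR : Jan.HomEqNum W₀) {c : ℚ} {r₀ : ℕ} (hc : ∀ r a : ℕ, r₀ ≤ r → c ≠ 2 * j - r - a) (n : ℕ) :
    ∀ r, r₀ ≤ r → j + 1 ≤ r + n → ∀ z ∈ F Y j r, C.act δ.1 (S.res z) = c • S.res z →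
      S.res z = 0 := by
  have hε : S.ε.1 ∈ C₀.gr (Y.prod Y) Y.dim := S.ε.2
  have hleray := hS.isLeray
  induction n with
  | zero =>
    intro r _ hr z hz _
    rw [hF.top _ _ z (hF.anti' _ _ (by omega) hz), map_zero]
  | succ n ih =>
    intro r hr₀ hr z hz hcz
    by_cases hrj : j + 1 ≤ r
    · rw [hF.top _ _ z (hF.anti' _ _ hrj hz), map_zero]
    · obtain ⟨q, hq, h1, h2⟩ := exists_compl hR Φ
      have hP := polyC_mem hε (rootPoly ((2 * j - r : ℕ) : ℚ) 0 S.b)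
      have h3 : C₀.act (C₀.comp (polyC C₀ S.ε.1 (rootPoly ((2 * j - r : ℕ) : ℚ) 0 S.b)) q) z ∈
          F Y j (r + 1) := by
        refine hF.motivic _ j (2 * j - r) r (by omega) _ (C₀.comp_mem hP hq rfl) ?_ z hz
        intro v hv
        rw [W₀.act_comp _ hq]
        exact h1 _ (rootPoly_mem hε hleray _ (S.b + 1) 0 (by omega) v (hleray.zero _ hv))
      have h4 : S.res (C₀.act (C₀.comp (polyC C₀ S.ε.1 (rootPoly ((2 * j - r : ℕ) : ℚ) 0 S.b)) q)
          z) = (rootPoly ((2 * j - r : ℕ) : ℚ) 0 S.b).eval c • S.res z := by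
        rw [C₀.act_comp, ← hS.res_eq (h2 _), hS.res_poly, act_polyC_eigen hcz]
      have h5 : (rootPoly ((2 * j - r : ℕ) : ℚ) 0 S.b).eval c ≠ 0 := by
        refine eval_rootPoly_ne_zero fun l _ _ => ?_
        rw [Nat.cast_sub (by omega)]
        push_cast
        exact hc r l hr₀
      have h6 := ih (r + 1) (by omega) (by omega) _ h3 (by rw [h4, map_smul, hcz, smul_comm])
      rw [h4] at h6
      exact (smul_eq_zero.1 h6).resolve_left h5

/-- Homologically trivial eigenvectors of `δ` with an eigenvalue `c ≥ 2j` are zero. -/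
lemma SpreadDeg.eq_zero_of_homTrivial {F : Family C₀}
    (hF : Weak W₀ F) (hR : Jan.HomEqNum W₀) (hx : HomTrivial W X j x) {c : ℚ}
    (hcx : C.act δ.1 x = c • x) (hc : ∀ r a : ℕ, 1 ≤ r + a → c ≠ 2 * j - r - a) : x = 0 := by
  have hε : S.ε.1 ∈ C₀.gr (Y.prod Y) Y.dim := S.ε.2
  have hy : S.y ∈ C₀.gr Y j := hS.y_mem
  have hleray := hS.isLeray
  obtain ⟨q, hq, h1, h2⟩ := exists_compl hR Φ
  have hP := polyC_mem hε (rootPoly ((2 * j : ℕ) : ℚ) 1 S.b)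
  have h3 : C₀.act (C₀.comp (polyC C₀ S.ε.1 (rootPoly ((2 * j : ℕ) : ℚ) 1 S.b)) q) S.y ∈
      F Y j 1 := by
    refine (hF.one _ _ _).2 ⟨C₀.act_mem (C₀.comp_mem hP hq rfl) hy rfl, ?_⟩
    rw [W₀.cl_act, W₀.act_comp _ hq]
    exact h1 _ (rootPoly_mem hε hleray _ (S.b + 1) 1 (by omega) _ (hS.class_one hx.2))
  have h4 : S.res (C₀.act (C₀.comp (polyC C₀ S.ε.1 (rootPoly ((2 * j : ℕ) : ℚ) 1 S.b)) q) S.y) =
      (rootPoly ((2 * j : ℕ) : ℚ) 1 S.b).eval c • x := by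
    rw [C₀.act_comp, ← hS.res_eq (h2 _), hS.res_poly, hS.res_spread,
      act_polyC_eigen hcx]
  have h5 : (rootPoly ((2 * j : ℕ) : ℚ) 1 S.b).eval c ≠ 0 := by
    refine eval_rootPoly_ne_zero fun l hl _ => ?_
    have := hc 0 l (by omega)
    push_cast
    push_cast at this
    rwa [sub_zero] at this
  have h6 := hS.finish hF hR (r₀ := 1) (fun r a hr => hc r a (by omega)) (j + 1) 1 le_rfl
    (by omega) _ h3 (by rw [h4, map_smul, hcx, smul_comm])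
  rw [h4] at h6
  exact (smul_eq_zero.1 h6).resolve_left h5

/-- Classes in the kernel of the Abel–Jacobi map with `δ x = (2j - 1) x` are zero, under the
condition on normal functions. -/
lemma SpreadDeg.eq_zero_of_ajTrivial {F : Family C₀}
    (hF : IsBBAJ W₀ N₀ F) (hR : Jan.HomEqNum W₀) (hx : x ∈ N X j) {m : ℕ}
    (hm : m + 1 = 2 * j) (hcx : C.act δ.1 x = (m : ℚ) • x)
    (hn : W₀.cl Y S.y ∈ S.L (2 * j) 2) : x = 0 := by
  have hF' := hF.weak
  have hε : S.ε.1 ∈ C₀.gr (Y.prod Y) Y.dim := S.ε.2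
  have hy : S.y ∈ C₀.gr Y j := hS.y_mem
  have hleray := hS.isLeray
  have hmq : (m : ℚ) + 1 = 2 * j := by exact_mod_cast hm
  obtain ⟨q, hq, h1, h2⟩ := exists_compl hR Φ
  -- the first step
  have hP := polyC_mem hε (rootPoly ((2 * j : ℕ) : ℚ) 2 S.b)
  set z₁ := C₀.act (C₀.comp (polyC C₀ S.ε.1 (rootPoly ((2 * j : ℕ) : ℚ) 2 S.b)) q) S.y with hz₁
  have h3 : z₁ ∈ C₀.gr Y j ∧ W₀.cl Y z₁ = 0 := by
    refine ⟨C₀.act_mem (C₀.comp_mem hP hq rfl) hy rfl, ?_⟩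
    rw [hz₁, W₀.cl_act, W₀.act_comp _ hq]
    exact h1 _ (rootPoly_mem hε hleray _ (S.b + 1) 2 (by omega) _ hn)
  have h4 : S.res z₁ = (rootPoly ((2 * j : ℕ) : ℚ) 2 S.b).eval (m : ℚ) • x := by
    rw [hz₁, C₀.act_comp, ← hS.res_eq (h2 _), hS.res_poly, hS.res_spread,
      act_polyC_eigen hcx]
  have h5 : (rootPoly ((2 * j : ℕ) : ℚ) 2 S.b).eval (m : ℚ) ≠ 0 := by
    refine eval_rootPoly_ne_zero fun l hl _ h => ?_
    push_cast at h
    have hl' : (2 : ℚ) ≤ l := by exact_mod_cast hl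
    linarith
  -- the second step
  have hQ := polyC_mem hε (rootPoly (m : ℚ) 1 S.b)
  set z₂ := C₀.act (C₀.comp (polyC C₀ S.ε.1 (rootPoly (m : ℚ) 1 S.b)) q) z₁ with hz₂
  have h6 : z₂ ∈ N₀ Y j := by
    refine hS.jacobian h3.1 h3.2 ?_ (C₀.comp_mem hQ hq rfl) hm ?_
    · rw [h4]
      exact Submodule.smul_mem _ _ hx
    · intro v hv
      rw [W₀.act_comp _ hq]
      exact h1 _ (rootPoly_mem hε hleray _ (S.b + 1) 1 (by omega) _ hv)
  have h8 : z₂ ∈ F Y j 2 := (hF.two Y j _).2 h6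
  have h9 : S.res z₂ = (rootPoly (m : ℚ) 1 S.b).eval (m : ℚ) •
      ((rootPoly ((2 * j : ℕ) : ℚ) 2 S.b).eval (m : ℚ) • x) := by
    rw [hz₂, C₀.act_comp, ← hS.res_eq (h2 _), hS.res_poly, h4,
      act_polyC_eigen (c := (m : ℚ)) (by rw [map_smul, hcx, smul_comm])]
  have h10 : (rootPoly (m : ℚ) 1 S.b).eval (m : ℚ) ≠ 0 := by
    refine eval_rootPoly_ne_zero fun l hl _ h => ?_
    have hl' : (1 : ℚ) ≤ l := by exact_mod_cast hl
    linarith
  -- the remaining steps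
  have h11 := hS.finish hF' hR (c := (m : ℚ)) (r₀ := 2) (fun r a hr h => by
    have hr' : (2 : ℚ) ≤ r := by exact_mod_cast hr
    have ha' : (0 : ℚ) ≤ a := by exact_mod_cast Nat.zero_le a
    linarith) (j + 1) 2 le_rfl (by omega) _ h8 (by
      rw [h9, map_smul, map_smul, hcx]
      simp only [smul_smul]
      congr 1
      ring)
  rw [h9] at h11
  exact (smul_eq_zero.1 ((smul_eq_zero.1 h11).resolve_left h10)).resolve_left h5

end Extension

end Pool.Agent.H837.AJ
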