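import Pool.Graph.R_pool_sql_team_seeded_47a924f7.T6.H15.BB.Defs

/-!
# Spreading out complex cycles and their Abel–Jacobi invariants: definitions

`𝒱₀` is a class of smooth proper varieties over a field `k₀` (the algebraic numbers, for example),
with Chow groups `C₀`, a Weil cohomology theory `W₀` and the kernels `N₀` of the Abel–Jacobi maps,
and `𝒱`, `C`, `W`, `N` are the same over an extension `K` of `k₀` (the complex numbers).
-/

open CategoryTheory CategoryTheory.Limits AlgebraicGeometry
open Pool.Agent.H914 Pool.Agent.H914.VarClass Pool.Agent.H914.VarClass.Obj Pool.Agent.R903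
open Pool.Agent.T6.H15.BB

universe u v w u' v' w'

namespace Pool.Agent.H837.AJ

section Alg

/-- `x` is a value of `T`. -/
def IsValue {K : Type w} [Field K] {V : Type w} [Ring V] [Algebra K V] {V' : Type w}
    [Ring V'] [Algebra K V'] (T : V →ₗ[K] V') (x : V') : Prop :=
  ∃ z, T z = x

/-- The subspace generated by the elements with the property `p`. -/
def spanH {K : Type w} [Field K] {V : Type w} [Ring V] [Algebra K V] (p : V → Prop) :
    Submodule K V :=
  Submodule.span K {x | p x}

/-- The subspace `S` is contained in the subspace `T`. -/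
def SubLe {K : Type w} [Field K] {V : Type w} [Ring V] [Algebra K V] (S T : Submodule K V) :
    Prop := S ≤ T

/-- `T` is zero on the subspace `S`. -/
def KillsSub {K : Type w} [Field K] {V : Type w} [Ring V] [Algebra K V] {V' : Type w} [Ring V']
    [Algebra K V'] (S : Submodule K V) (T : V →ₗ[K] V') : Prop := ∀ v ∈ S, T v = 0

/-- `T` acts on `S` as multiplication by the number `m - a`, up to elements of `S'`. -/
def ActsAs {K : Type w} [Field K] {V : Type w} [Ring V] [Algebra K V] (S S' : Submodule K V)
    (T : V →ₗ[K] V) (m a : ℕ) : Prop := ∀ v ∈ S, T v - ((m : K) - a) • v ∈ S'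

/-- `T` acts on `S m` as multiplication by the number `m`, for all `m`. -/
def IsDegreeOn {K : Type w} [Field K] {V : Type w} [Ring V] [Algebra K V] (S : ℕ → Submodule K V)
    (T : V →ₗ[K] V) : Prop := ∀ m, ∀ a ∈ S m, T a = (m : K) • a

/-- Multiplication by the `n`-th power of `x` is injective on `S`. -/
def MulInj {K : Type w} [Field K] {V : Type w} [Ring V] [Algebra K V] (S : Submodule K V)
    (x : V) (n : ℕ) : Prop := ∀ a ∈ S, x ^ n * a = 0 → a = 0

/-- `f x` lies in `S`. -/
def MapsInto {A : Type v} [CommRing A] {K : Type w} [Field K] {V : Type w} [Ring V] [Algebra K V]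
    (f : A →+* V) (S : Submodule K V) (x : A) : Prop := f x ∈ S

/-- `f x`. -/
def valueAt {A : Type v} [CommRing A] [Algebra ℚ A] {A' : Type v'} [CommRing A'] [Algebra ℚ A']
    (f : A →ₐ[ℚ] A') (x : A) : A' := f x

/-- `f' T = T' f`. -/
def Intertwines {A : Type v} [CommRing A] [Algebra ℚ A] {A' : Type v} [CommRing A'] [Algebra ℚ A']
    {B : Type v'} [CommRing B] [Algebra ℚ B] {B' : Type v'} [CommRing B'] [Algebra ℚ B']
    (f : A →ₐ[ℚ] B) (f' : A' →ₐ[ℚ] B') (T : A →ₗ[ℚ] A') (T' : B →ₗ[ℚ] B') : Prop :=
  ∀ x, f' (T x) = T' (f x)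

/-- The intersection number of `x` and `y`. -/
def pair {A : Type v} [CommRing A] [Algebra ℚ A] (deg : A →ₗ[ℚ] ℚ) (x y : A) : ℚ := deg (x * y)

/-- `x` is numerically trivial. -/
def NumTrivial {A : Type v} [CommRing A] [Algebra ℚ A] (deg : A →ₗ[ℚ] ℚ) (x : A) : Prop :=
  ∀ y, pair deg x y = 0

/-- Properties of the Leray filtration `L m a` of the cohomology `V` with the graded pieces `gr m`,
where `VH` consists of the classes which come from the boundary. -/
structure IsLeray {K : Type w} [Field K] {V : Type w} [Ring V] [Algebra K V]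
    (gr : ℕ → Submodule K V) (VH : Submodule K V) (T : V →ₗ[K] V) (b : ℕ)
    (L : ℕ → ℕ → Submodule K V) : Prop where
  zero : ∀ m, SubLe (gr m) (L m 0)
  anti : ∀ m a, SubLe (L m (a + 1)) (L m a)
  le : ∀ m a, SubLe VH (L m a)
  /-- the last step of the Leray filtration comes from the boundary, by the theory of weights -/
  top : ∀ m, SubLe (L m (b + 1)) VH
  /-- `T` acts as `m - a` on the graded piece of index `a` of the cohomology of degree `m` -/
  step : ∀ m a, ActsAs (L m a) (L m (a + 1)) T m a

/-- The data of one variety: its Chow group `A` with the degree of zero-cycles, the subspaces `gr j`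
of the classes of codimension `j` and `ker j` of the homologically trivial classes of codimension
`j` with the Abel–Jacobi invariant zero, its cohomology `H`, the cycle class map `cl`, and the
correspondences `G` of degree zero with their actions on `A` and `H`. -/
structure CycleModule where
  A : Type v
  [ringA : CommRing A]
  [algebraA : Algebra ℚ A]
  K : Type w
  [field : Field K]
  H : Type w
  [ringH : Ring H]
  [algebraH : Algebra K H]
  G : Type v
  deg : A →ₗ[ℚ] ℚ
  gr : ℕ → Submodule ℚ A
  ker : ℕ → Submodule ℚ A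
  grH : ℕ → Submodule K H
  cl : A →+* H
  act : G → A →ₗ[ℚ] A
  actH : G → H →ₗ[K] H

attribute [instance] CycleModule.ringA CycleModule.algebraA CycleModule.field CycleModule.ringH
  CycleModule.algebraH

/-- Numerical and homological equivalence coincide. -/
def HomEqNum (M : CycleModule.{v, w}) : Prop :=
  ∀ i x, MemSub (M.gr i) x → NumTrivial M.deg x → MapsToZero M.cl x

/-- The hard Lefschetz theorem, for a variety of dimension `d`: there is a divisor class `D` such
that the multiplication by `D^(d-b)` is injective on the cohomology of degree `b < d`. -/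
def HardLefschetz (M : CycleModule.{v, w}) (d : ℕ) : Prop :=
  ∃ D, MemSub (M.gr 1) D ∧ ∀ b < d, MulInj (M.grH b) (M.cl D) (d - b)

/-- The data of a spread: let `M` be the data of a variety `X` over `K`, and `M₀` the data of a
smooth projective variety `Y` over `k₀` with a morphism to a variety `B` of dimension `b` over `k₀`
whose generic fibre is `X`. -/
structure Spread (M₀ : CycleModule.{v, w}) (M : CycleModule.{v', w'}) where
  b : ℕ
  /-- a correspondence on `Y` -/
  ε : M₀.G
  /-- a class on `Y` -/
  y : M₀.A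
  /-- the class of the fibre of `Y` over a general closed point of `B` -/
  τ : M₀.A
  /-- the restriction of cycles from `Y` to `X` -/
  res : M₀.A →ₐ[ℚ] M.A
  /-- `L m a` consists of the classes in the cohomology of `Y` whose restrictions to the part of `Y`
  over a small open subset of `B` lie in the step `a` of the Leray filtration of the cohomology of
  degree `m` -/
  L : ℕ → ℕ → Submodule M₀.K M₀.H

/-- The class of `y` lies in `L m a`. -/
def Spread.ClassIn {M₀ : CycleModule.{v, w}} {M : CycleModule.{v', w'}} (S : Spread M₀ M)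
    (m a : ℕ) : Prop := MapsInto M₀.cl (S.L m a) S.y

/-- `δ` is a degree operator: it acts on the cohomology of degree `m` as multiplication by `m`. -/
def CycleModule.IsDeg (M : CycleModule.{v, w}) (δ : M.G) : Prop := IsDegreeOn M.grH (M.actH δ)

/-- The correspondence `ε` on `Y` extends `δ` on `X`, and `y` on `Y` extends the class `x` of
codimension `j` on `X`. Here `VH` is generated by the classes in the cohomology of `Y` which come
from varieties `D` with a morphism to `Y` such that `D` does not dominate `B`. -/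
structure IsSpread {M₀ : CycleModule.{v, w}} {M : CycleModule.{v', w'}}
    (VH : Submodule M₀.K M₀.H) (j : ℕ) (δ : M.G) (x : M.A) (S : Spread M₀ M) : Prop where
  y_mem : MemSub (M₀.gr j) S.y
  τ_mem : MemSub (M₀.gr S.b) S.τ
  res_y : valueAt S.res S.y = x
  res_act : Intertwines S.res S.res (M₀.act S.ε) (M.act δ)
  /-- localization: classes which restrict to zero come from the boundary -/
  res_zero : ∀ z, valueAt S.res z = 0 → MapsInto M₀.cl VH z
  leray : M.IsDeg δ → IsLeray M₀.grH VH (M₀.actH S.ε) S.b S.L
  /-- if `x` is homologically trivial, the class of `y` lies in the step one -/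
  class_one : MapsToZero M.cl x → S.ClassIn (2 * j) 1
  /-- if the Abel–Jacobi invariant of a homologically trivial class `z` on `Y` is zero on `X`, it
  comes from the step one of the Leray filtration of the cohomology of degree `2j - 1` -/
  jacobian : ∀ z, MemSub (M₀.gr j) z → MapsToZero M₀.cl z → MemSub (M.ker j) (valueAt S.res z) →
    ∀ (γ : M₀.G) (m : ℕ), m + 1 = 2 * j → KillsSub (S.L m 1) (M₀.actH γ) →
      MemSub (M₀.ker j) (applyLin (M₀.act γ) z)
  /-- the degree of the restriction of a cycle `y w` to a fibre -/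
  deg : ∀ w, ∃ w', pair M₀.deg (S.y * S.τ) w = pair M.deg x w'
  /-- by the theorem of the fixed part and the semisimplicity of the monodromy, `x` is homologically
  trivial if the intersection of `y` and a fibre is homologically trivial on `Y` -/
  fibre : MapsToZero M₀.cl (S.y * S.τ) → MapsToZero M.cl x

/-- `e` is injective, it respects the codimension and the cycle class maps, the kernels of the
Abel–Jacobi maps, and numerical equivalence. -/
structure IsEmbedding {M₀ : CycleModule.{v, w}} {M : CycleModule.{v', w'}}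
    (e : M₀.A →ₐ[ℚ] M.A) : Prop where
  injective : ∀ x, valueAt e x = 0 → x = 0
  gr : ∀ i x, MemSub (M.gr i) (valueAt e x) ↔ MemSub (M₀.gr i) x
  cl : ∀ x, MapsToZero M.cl (valueAt e x) ↔ MapsToZero M₀.cl x
  ker : ∀ i x, MemSub (M.ker i) (valueAt e x) ↔ MemSub (M₀.ker i) x
  num : ∀ x, NumTrivial M₀.deg x → NumTrivial M.deg (valueAt e x)

end Alg

section Base

variable {k : Type u} [Field k] {𝒱 : VarClass k}

/-- A family of subspaces of the Chow groups: `N X j` is a subspace of `CH^j(X)`. -/
abbrev Kernels (C : ChowTheory.{u, v} 𝒱) : Type (max (u + 1) v) :=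
  ∀ X : 𝒱.Obj, ℕ → Submodule ℚ (C.CH X)

variable {C : ChowTheory.{u, v} 𝒱}

/-- The correspondences of degree zero from `X` to `X`: the group `CH^(dim X)(X × X)`. -/
abbrev Corr0 (C : ChowTheory.{u, v} 𝒱) (X : 𝒱.Obj) : Type v :=
  {γ : C.CH (X.prod X) // InCH C (X.prod X) X.dim γ}

/-- The data of the variety `X`. -/
noncomputable abbrev ofVariety (W : WeilTheory.{u, v, w} C) (N : Kernels C) (X : 𝒱.Obj) :
    CycleModule.{v, w} where
  A := C.CH X
  K := W.K
  H := W.H X
  G := Corr0 C X
  deg := C.deg X
  gr := C.gr X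
  ker := N X
  grH := W.gr X
  cl := W.cl X
  act := fun γ => C.act γ.1
  actH := fun γ => W.act γ.1

/-- The correspondence `γ` from `X` to `Y` acts as zero on `H^m(X)`. -/
def Kill (W : WeilTheory.{u, v, w} C) {X Y : 𝒱.Obj} (γ : C.CH (X.prod Y)) (m : ℕ) : Prop :=
  KillsSub (W.gr X m) (W.act γ)

/-- The correspondence `γ` from `X` to `Y` maps `CH^j(X)` to `CH^i(Y)`: it lies in `CH^l(X × Y)` for
`l = i - j + dim X`. -/
def IsCorr (C : ChowTheory.{u, v} 𝒱) {X Y : 𝒱.Obj} (γ : C.CH (X.prod Y)) (j i : ℕ) : Prop :=
  ∃ l, j + l = i + X.dim ∧ InCH C (X.prod Y) l γ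

/-- The formal properties of the kernels `N X j` of the Abel–Jacobi maps on the homologically trivial
classes in `CH^j(X)`: they are respected by correspondences, and a correspondence which acts as zero
on `H^(2j-1)(X)` maps all homologically trivial classes in `CH^j(X)` to the kernel. -/
structure IsAJKernel (W : WeilTheory.{u, v, w} C) (N : Kernels C) : Prop where
  hom : ∀ X j x, MemSub (N X j) x → HomTrivial W X j x
  corr : ∀ (X Y : 𝒱.Obj) (γ : C.CH (X.prod Y)) (j i : ℕ) (x : C.CH X), IsCorr C γ j i →
    MemSub (N X j) x → MemSub (N Y i) (corrAct C γ x)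
  kills : ∀ (X Y : 𝒱.Obj) (γ : C.CH (X.prod Y)) (j i m : ℕ) (x : C.CH X), IsCorr C γ j i →
    m + 1 = 2 * j → Kill W γ m → HomTrivial W X j x → MemSub (N Y i) (corrAct C γ x)

/-- `F` is a **Bloch–Beilinson filtration**: conditions 1 to 4 of the problem, with `F^2` the kernel
of the Abel–Jacobi map. -/
structure IsBBAJ (W : WeilTheory.{u, v, w} C) (N : Kernels C) (F : Family C) : Prop where
  anti : ∀ X j ν x, InF F X j (ν + 1) x → InF F X j ν x
  zero : ∀ X j x, InF F X j 0 x ↔ InCH C X j x
  one : ∀ X j x, InF F X j 1 x ↔ HomTrivial W X j x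
  two : ∀ X j x, InF F X j 2 x ↔ MemSub (N X j) x
  top : ∀ X j x, InF F X j (j + 1) x → x = 0
  corr : ∀ (X Y : 𝒱.Obj) (γ : C.CH (X.prod Y)) (j i ν : ℕ) (x : C.CH X), IsCorr C γ j i →
    InF F X j ν x → InF F Y i ν (corrAct C γ x)
  motivic : ∀ (X Y : 𝒱.Obj) (γ : C.CH (X.prod Y)) (j i m ν : ℕ) (x : C.CH X), IsCorr C γ j i →
    m + ν = 2 * j → Kill W γ m → InF F X j ν x → InF F Y i (ν + 1) (corrAct C γ x)

end Base

section Extension

variable {k₀ : Type u} [Field k₀] {𝒱₀ : VarClass k₀} {C₀ : ChowTheory.{u, v} 𝒱₀}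
  (W₀ : WeilTheory.{u, v, w} C₀) (N₀ : Kernels C₀)
  {K : Type u'} [Field K] {𝒱 : VarClass K} {C : ChowTheory.{u', v'} 𝒱}
  (W : WeilTheory.{u', v', w'} C) (N : Kernels C)

/-- The data `S` are a spread of the correspondence `δ` and of the class `x` of codimension `j` on
`X`, on a variety `Y` over `k₀`. Here `Φ` is the class of the morphisms to `Y` from a variety which
does not dominate the base; cycles which come from such varieties vanish on the generic fibre. -/
def IsSpreadOf {X : 𝒱.Obj} (j : ℕ) (δ : Corr0 C X) (x : C.CH X) {Y : 𝒱₀.Obj}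
    (Φ : ∀ D : 𝒱₀.Obj, (D ⟶ Y) → Prop) (S : Spread (ofVariety W₀ N₀ Y) (ofVariety W N X)) :
    Prop :=
  (∀ D f, Φ D f → ∀ z, valueAt S.res (applyLin (C₀.push f) z) = 0) ∧
    IsSpread (spanH fun v => ∃ (D : 𝒱₀.Obj) (f : D ⟶ Y), Φ D f ∧ IsValue (W₀.push f) v) j δ x S

variable (C₀ C) in
/-- Extension of the base field from `k₀` to `K`, for the varieties of the class `𝒱₀`. -/
structure BaseExtension where
  /-- the variety `X ⊗ K` -/
  obj : 𝒱₀.Obj → 𝒱.Obj
  /-- the homomorphism `CH(X) → CH(X ⊗ K)` -/
  ch : ∀ X : 𝒱₀.Obj, C₀.CH X →ₐ[ℚ] C.CH (obj X)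
  /-- the map from `CH(X × Y)` to `CH((X ⊗ K) × (Y ⊗ K))` -/
  corr : ∀ X Y : 𝒱₀.Obj, C₀.CH (X.prod Y) → C.CH ((obj X).prod (obj Y))

/-- The properties of the extension of the base field which are used; `k₀` is algebraically closed,
and the Abel–Jacobi map of a variety over `k₀` is that of its extension to `K`. -/
structure IsExtension (E : BaseExtension C₀ C) : Prop where
  emb : ∀ X, IsEmbedding (M₀ := ofVariety W₀ N₀ X) (M := ofVariety W N (E.obj X)) (E.ch X)
  corr_mem : ∀ X Y γ j i, IsCorr C₀ γ j i → IsCorr C (E.corr X Y γ) j i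
  corr_act : ∀ X Y γ, Intertwines (E.ch X) (E.ch Y) (C₀.act γ) (C.act (E.corr X Y γ))
  corr_kills : ∀ X Y γ j, Kill W₀ γ j → Kill W (E.corr X Y γ) j

end Extension

end Pool.Agent.H837.AJ
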