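import Pool.Agent.H837.AJ.Defs

/-!
# The condition on normal functions
-/

open Pool.Agent.H914 Pool.Agent.H914.VarClass Pool.Agent.R903 Pool.Agent.T6.H15.BB

universe u v w u' v' w'

namespace Pool.Agent.H837.AJ

variable {k₀ : Type u} [Field k₀] {𝒱₀ : VarClass k₀} {C₀ : ChowTheory.{u, v} 𝒱₀}
  (W₀ : WeilTheory.{u, v, w} C₀) (N₀ : Kernels C₀)
  {K : Type u'} [Field K] {𝒱 : VarClass K} {C : ChowTheory.{u', v'} 𝒱}
  (W : WeilTheory.{u', v', w'} C) (N : Kernels C)

/-- Spreading out is possible, for every variety `X` over `K`, every correspondence `δ` of degree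
zero from `X` to `X`, and every `x` in `CH^j(X)`. -/
def CanSpread : Prop :=
  ∀ (X : 𝒱.Obj) (j : ℕ) (δ : Corr0 C X) (x : C.CH X), InCH C X j x →
    ∃ (Y : 𝒱₀.Obj) (Φ : _) (S : _), IsSpreadOf W₀ N₀ W N j δ x (Y := Y) Φ S

/-- **The condition on normal functions**: if the Abel–Jacobi invariant of the homologically trivial
class `x` on `X` is zero, then the class of the spread `y` of `x` lies in the step two of the Leray
filtration; that is, the topological invariant of the normal function given by `y` is zero. -/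
def NormalFunctionCondition : Prop :=
  ∀ (X : 𝒱.Obj) (j : ℕ) (δ : Corr0 C X), (ofVariety W N X).IsDeg δ →
    ∀ x, MemSub (N X j) x → ∀ (Y : 𝒱₀.Obj) (Φ : _) (S : _),
      IsSpreadOf W₀ N₀ W N j δ x (Y := Y) Φ S → S.ClassIn (2 * j) 2

end Pool.Agent.H837.AJ
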