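import Pool.Graph.R_pool_sql_team_seeded_47a924f7.T6.H15.BB.Main
import Pool.Agent.H837.AJ.Core
import Pool.Agent.H837.AJ.Normal

/-!
# Bloch–Beilinson filtrations with `F^2` the kernel of the Abel–Jacobi map, over `K` and over `k₀`
-/

open CategoryTheory CategoryTheory.Limits AlgebraicGeometry Polynomial
open Pool.Agent.H914 Pool.Agent.H914.VarClass Pool.Agent.H914.VarClass.Obj Pool.Agent.R903
open Pool.Agent.R903.WeilTheory Pool.Agent.T6.H15.BB

universe u v w u' v' w' t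

namespace Pool.Agent.H837.AJ

section Base

variable {k : Type u} [Field k] {𝒱 : VarClass k} {C : ChowTheory.{u, v} 𝒱}
  {W : WeilTheory.{u, v, w} C}

lemma nodes_Icc {a b : ℕ} (h : a ≤ b) :
    T6.H15.BB.nodes (Finset.Icc a b) =
      (Polynomial.X - Polynomial.C (a : ℚ)) * T6.H15.BB.nodes (Finset.Icc (a + 1) b) := by
  rw [T6.H15.BB.nodes, T6.H15.BB.nodes, ← Finset.insert_Icc_succ_left_eq_Icc h,
    Finset.prod_insert (by simp)]
  rfl

lemma Weak.push {F : Family C} (hF : Weak W F) {X : 𝒱.Obj} {δ : C.CH (X.prod X)}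
    (hδ : W.IsDegree X δ) {j r t : ℕ} (ht : t + r = 2 * j) {x : C.CH X} (hx : x ∈ F X j r) (n : ℕ)
    (hn : n ≤ t + 1) :
    C.act (polyC C δ (T6.H15.BB.nodes (Finset.Icc (t + 1 - n) t))) x ∈ F X j (r + n) := by
  have hδ' : δ ∈ C.gr (X.prod X) X.dim := hδ.1
  induction n with
  | zero =>
    rw [Nat.sub_zero, Finset.Icc_eq_empty (by omega), T6.H15.BB.nodes, Finset.prod_empty, polyC_one,
      C.act_diagC]
    exact hx
  | succ n ih =>
    have h1 := ih (by omega)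
    rw [show t + 1 - (n + 1) = t - n by omega, nodes_Icc (by omega),
      show t - n + 1 = t + 1 - n by omega, polyC_mul, C.act_comp]
    refine hF.motivic X j (t - n) (r + n) (by omega) _ (polyC_mem hδ' _) ?_ _ h1
    intro v hv
    rw [polyC_sub, polyC_X, polyC_C, W.act_sub, W.act_smul, LinearMap.sub_apply,
      LinearMap.smul_apply, W.act_diagC, hδ.2 _ v hv]
    push_cast
    rw [sub_self]

/-- The Bloch–Beilinson filtration given by Chow–Künneth decompositions. -/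
theorem GoodOn.exists_isBBAJ (hG : GoodOn W (fun _ => True)) {N : Kernels C}
    (hN : IsAJKernel W N) (h0 : ∀ X j m (π : ℕ → C.CH (X.prod X)), m + 1 = 2 * j → W.IsCK X π →
      ∀ x ∈ N X j, C.act (π m) x = 0) : ∃ F, IsBBAJ W N F := by
  have hS : ∀ X Y : 𝒱.Obj, True → True → True := fun _ _ _ _ => trivial
  obtain ⟨F, hF, hck⟩ := hG.exists_bbCore hS
  refine ⟨F, fun X j k x hx => hF.anti X trivial j k hx, fun X j x => ?_,
    fun X j x => hF.one X trivial j x, ?_, fun X j x hx => ?_, ?_, ?_⟩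
  · rw [InF, hF.zero X trivial j]; rfl
  · intro X j x
    obtain ⟨π, hπ⟩ := hG.ck X trivial
    rw [InF, MemSub, MemSub, hck X trivial π hπ]
    constructor
    · intro hx
      have hx1 := (hG.ckFil_one trivial hπ j x).1 (ckFil_anti hπ (by omega) hx)
      rw [mem_ckFil hπ] at hx
      rcases Nat.eq_zero_or_pos j with rfl | hj
      · have h1 : C.ckFil π 0 (0 + 1) = ⊥ := hG.ckFil_top trivial hπ 0
        have h2 : x ∈ C.ckFil π 0 1 := (hG.ckFil_one trivial hπ 0 x).2 hx1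
        rw [h1, Submodule.mem_bot] at h2
        rw [h2]
        exact Submodule.zero_mem _
      rw [← hπ.sum_act x]
      refine Submodule.sum_mem _ fun b _ => ?_
      by_cases hb : 2 * j < b + 2
      · rw [hx.2 b hb]
        exact Submodule.zero_mem _
      · refine hN.kills X X (π b) j j (2 * j - 1) x ⟨X.dim, rfl, hπ.mem b⟩ (by omega) ?_ hx1
        intro a ha
        rw [hπ.proj b _ a ha, if_neg (by omega)]
    · intro hx
      have hx1 := hN.hom X j x hx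
      rw [mem_ckFil hπ]
      refine ⟨hx1.1, fun b hb => ?_⟩
      by_cases hb' : 2 * j ≤ b
      · exact hG.van X trivial π hπ j b (Or.inr hb') x hx1
      · exact h0 X j b π (by omega) hπ x hx
  · rw [InF, hF.top X trivial j] at hx
    exact (Submodule.mem_bot ℚ).1 hx
  · rintro X Y γ j i ν x ⟨l, h, hγ⟩ hx
    obtain ⟨π, hπ⟩ := hG.ck X trivial
    obtain ⟨ρ, hρ⟩ := hG.ck Y trivial
    rw [InF, MemSub, hck X trivial π hπ] at hx
    rw [InF, MemSub, hck Y trivial ρ hρ]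
    exact (hG.act_mem hS trivial trivial hπ hρ hγ h hx).1
  · rintro X Y γ j i m ν x ⟨l, h, hγ⟩ hm hk hx
    obtain ⟨π, hπ⟩ := hG.ck X trivial
    obtain ⟨ρ, hρ⟩ := hG.ck Y trivial
    rw [InF, MemSub, hck X trivial π hπ] at hx
    rw [InF, MemSub, hck Y trivial ρ hρ]
    refine (hG.act_mem hS trivial trivial hπ hρ hγ h hx).2 fun a ha => ?_
    have : a = m := by omega
    rwa [this]

end Base

section Extension

variable {k₀ : Type u} [Field k₀] {𝒱₀ : VarClass k₀} {C₀ : ChowTheory.{u, v} 𝒱₀}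
  {W₀ : WeilTheory.{u, v, w} C₀} {N₀ : Kernels C₀}
  {K : Type u'} [Field K] {𝒱 : VarClass K} {C : ChowTheory.{u', v'} 𝒱}
  {W : WeilTheory.{u', v', w'} C} {N : Kernels C}

theorem eigUp (hR : Jan.HomEqNum W₀) (hS : CanSpread W₀ N₀ W N) {F : Family C₀}
    (hF : IsBBAJ W₀ N₀ F) : EigUp W := by
  intro X δ hδ i c hic x hx hc
  obtain ⟨Y, Φ, S, hS⟩ := hS X i ⟨δ, hδ.1⟩ x hx.1
  refine (SpreadDeg.mk hS hδ.2).eq_zero_of_homTrivial hF.weak hR hx hc fun r a h h' => ?_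
  have h4 : ((c + r + a : ℕ) : ℚ) = ((2 * i : ℕ) : ℚ) := by
    push_cast
    rw [h']
    ring
  rw [Nat.cast_inj] at h4
  omega

/-- numerical and homological equivalence coincide over the larger field -/
theorem homEqNum (hR : ∀ X, HomEqNum (ofVariety W₀ N₀ X)) (hS : CanSpread W₀ N₀ W N)
    (X : 𝒱.Obj) : HomEqNum (ofVariety W N X) := by
  intro i x hx h0
  obtain ⟨Y, Φ, S, hS⟩ := hS X i ⟨C.diagC X, C.diagC_mem X⟩ x hx
  refine hS.2.fibre (hR Y (i + S.b) _ (C₀.mul_mem hS.2.y_mem hS.2.τ_mem) fun w => ?_)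
  obtain ⟨w', hw'⟩ := hS.2.deg w
  rw [hw']
  exact h0 w'

theorem ascent (hH : ∀ X, HardLefschetz (ofVariety W N X) X.dim)
    (hR' : ∀ X, HomEqNum (ofVariety W₀ N₀ X)) (hS : CanSpread W₀ N₀ W N)
    (hN : IsAJKernel W N) {F : Family C₀} (hF : IsBBAJ W₀ N₀ F)
    (hn : NormalFunctionCondition W₀ N₀ W N) : ∃ F, IsBBAJ W N F := by
  have hR : Jan.HomEqNum W₀ := hR'
  have hL' : ∀ X, LefschetzStd W X := by
    intro X
    obtain ⟨D, hD1, h⟩ := hH X
    refine Jan.lefschetzStd (homEqNum hR' hS) hD1 fun b hb a ha h0 => h b hb a ha ?_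
    rw [map_pow] at h0
    exact h0
  have hG : GoodOn W (fun _ => True) :=
    ((eigUp hR hS hF).good fun X j => exists_proj_of_lefschetz (hL' X) j).goodOn hL'
  refine GoodOn.exists_isBBAJ hG hN fun X j m π hm hπ x hx => ?_
  have hδ := isDegree_degCK hπ
  have hx' : C.act (π m) x ∈ N X j := hN.corr X X (π m) j j x ⟨X.dim, rfl, hπ.mem m⟩ hx
  have hx1 := hN.hom X j _ hx'
  obtain ⟨Y, Φ, S, hS'⟩ := hS X j ⟨_, hδ.1⟩ _ hx1.1
  exact (SpreadDeg.mk hS' hδ.2).eq_zero_of_ajTrivial hF hR hx' hm (act_degCK hπ m x)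
    (hn X j ⟨_, hδ.1⟩ hδ.2 _ hx' Y Φ S hS')

theorem normalFunction {F : Family C} (hF : IsBBAJ W N F) :
    NormalFunctionCondition W₀ N₀ W N := by
  intro X j δ hδ x hx Y Φ S hS'
  change W₀.cl Y S.y ∈ S.L (2 * j) 2
  have hS := SpreadDeg.mk hS' hδ
  have hε : S.ε.1 ∈ C₀.gr (Y.prod Y) Y.dim := S.ε.2
  have hδ' : W.IsDegree X δ.1 := ⟨δ.2, hδ⟩
  have hleray := hS.isLeray
  have hx2 : x ∈ F X j 2 := (hF.two X j x).2 hx
  have hx1 : x ∈ F X j 1 := hF.anti X j 1 x hx2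
  have hcl : W.cl X x = 0 := ((hF.one X j x).1 hx1).cl
  have hy1 : W₀.cl Y S.y ∈ S.L (2 * j) 1 := hS.class_one hcl
  rcases Nat.eq_zero_or_pos j with rfl | hj
  · have h2 : x = 0 := hF.top X 0 x hx1
    exact hleray.le _ _ (hS.res_zero (hS.res_spread.trans h2))
  · have h1 : C.act (polyC C δ.1 (T6.H15.BB.nodes (Finset.Icc j (2 * j - 2)))) x = 0 := by
      have h := hF.weak.push hδ' (t := 2 * j - 2) (r := 2) (by omega) hx2 (j - 1) (by omega)
      rw [show 2 * j - 2 + 1 - (j - 1) = j by omega, show 2 + (j - 1) = j + 1 by omega] at h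
      exact hF.top X j _ h
    set P := T6.H15.BB.nodes (Finset.Icc j (2 * j - 2)) with hP
    have h3 := hS.res_zero (z := C₀.act (polyC C₀ S.ε.1 P) S.y) (by
      rw [hS.res_poly, hS.res_spread, h1])
    rw [W₀.cl_act] at h3
    have h4 := poly_mem hε hleray (m := 2 * j) (a := 1) P hy1
    have h5 := Submodule.sub_mem _ (hleray.le (2 * j) 2 h3) h4
    rw [sub_sub_cancel] at h5
    have h6 : P.eval (((2 * j : ℕ) : ℚ) - (1 : ℕ)) ≠ 0 := by
      rw [← Nat.cast_sub (by omega)]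
      refine eval_nodes_ne_zero ?_
      rw [Finset.mem_Icc]
      omega
    exact (Submodule.smul_mem_iff _ (by exact_mod_cast h6)).1 h5

variable {E : BaseExtension C₀ C}

lemma IsExtension.act (hE : IsExtension W₀ N₀ W N E) {X Y : 𝒱₀.Obj} (γ : C₀.CH (X.prod Y))
    (x : C₀.CH X) : E.ch Y (C₀.act γ x) = C.act (E.corr X Y γ) (E.ch X x) :=
  hE.corr_act X Y γ x

theorem descent (hE : IsExtension W₀ N₀ W N E) {F : Family C} (hF : IsBBAJ W N F) :
    IsBBAJ W₀ N₀ (fun X j k => (F (E.obj X) j k).comap (E.ch X).toLinearMap) where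
  anti X j k x hx := hF.anti (E.obj X) j k (E.ch X x) hx
  zero X j x := (hF.zero (E.obj X) j (E.ch X x)).trans ((hE.emb X).gr j x)
  one X j x := (hF.one (E.obj X) j (E.ch X x)).trans
    (and_congr ((hE.emb X).gr j x) ((hE.emb X).cl x))
  top X j x hx := (hE.emb X).injective x (hF.top (E.obj X) j (E.ch X x) hx)
  two X j x := (hF.two (E.obj X) j (E.ch X x)).trans ((hE.emb X).ker j x)
  corr X Y γ j i ν x h hx := by
    change E.ch Y (C₀.act γ x) ∈ F (E.obj Y) i ν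
    rw [hE.act]
    exact hF.corr (E.obj X) (E.obj Y) _ j i ν _ (hE.corr_mem X Y γ j i h) hx
  motivic X Y γ j i m ν x h hm hk hx := by
    change E.ch Y (C₀.act γ x) ∈ F (E.obj Y) i (ν + 1)
    rw [hE.act]
    exact hF.motivic (E.obj X) (E.obj Y) _ j i m ν _ (hE.corr_mem X Y γ j i h) hm
      (hE.corr_kills X Y γ m hk) hx

theorem descent_num (hE : IsExtension W₀ N₀ W N E) (hD : ∀ X, HomEqNum (ofVariety W N X))
    (X : 𝒱₀.Obj) : HomEqNum (ofVariety W₀ N₀ X) := fun i x hx h0 =>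
  ((hE.emb X).cl x).1 (hD (E.obj X) i _ (((hE.emb X).gr i x).2 hx) ((hE.emb X).num x h0))

theorem main (hN : IsAJKernel W N) (hL : ∀ X, HardLefschetz (ofVariety W N X) X.dim)
    (hS : CanSpread W₀ N₀ W N) (hE : IsExtension W₀ N₀ W N E) :
    ((∀ X, HomEqNum (ofVariety W N X)) ∧ ∃ F, IsBBAJ W N F) ↔
      (∀ X, HomEqNum (ofVariety W₀ N₀ X)) ∧ (∃ F₀, IsBBAJ W₀ N₀ F₀) ∧
        NormalFunctionCondition W₀ N₀ W N :=
  ⟨fun ⟨hD, F, hF⟩ => ⟨descent_num hE hD, ⟨_, descent hE hF⟩, normalFunction hF⟩,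
    fun ⟨hD, ⟨F₀, hF₀⟩, hn⟩ => ⟨homEqNum hD hS, ascent hL hD hS hN hF₀ hn⟩⟩

end Extension

end Pool.Agent.H837.AJ
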