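import Pool.Graph.R_pool_sql_team_seeded_47a924f7.T6.H15.BB.Poly
import Pool.Agent.H837.Jan.Regular
import Pool.Agent.H837.AJ.Defs

/-!
# Projectors onto the part of the cohomology which comes from the boundary
-/

open CategoryTheory CategoryTheory.Limits AlgebraicGeometry Polynomial
open Pool.Agent.H914 Pool.Agent.H914.VarClass Pool.Agent.H914.VarClass.Obj Pool.Agent.R903
open Pool.Agent.T6.H15.BB

universe u v w

namespace Pool.Agent.H837.AJ

variable {k : Type u} [Field k] {𝒱 : VarClass k} {C : ChowTheory.{u, v} 𝒱}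
  {W : WeilTheory.{u, v, w} C}

/-- a class of morphisms to `Y` -/
abbrev MorClass (Y : 𝒱.Obj) : Type (u + 1) := ∀ D : 𝒱.Obj, (D ⟶ Y) → Prop

/-- The subspace of `CH(Y)` generated by the push-forwards for the morphisms in the class `Φ`. -/
noncomputable def pushCH (C : ChowTheory.{u, v} 𝒱) {Y : 𝒱.Obj} (Φ : MorClass Y) :
    Submodule ℚ (C.CH Y) :=
  Submodule.span ℚ {x | ∃ (D : 𝒱.Obj) (f : D ⟶ Y), Φ D f ∧ ∃ z, C.push f z = x}

/-- The subspace of `H(Y)` generated by the push-forwards for the morphisms in the class `Φ`. -/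
noncomputable abbrev pushH (W : WeilTheory.{u, v, w} C) {Y : 𝒱.Obj} (Φ : MorClass Y) :
    Submodule W.K (W.H Y) :=
  spanH fun v => ∃ (D : 𝒱.Obj) (f : D ⟶ Y), Φ D f ∧ IsValue (W.push f) v

lemma act_graph (W : WeilTheory.{u, v, w} C) {X Y : 𝒱.Obj} (f : X ⟶ Y) (a : W.H X) :
    W.act (C.graph f) a = W.push f a := by
  rw [ChowTheory.graph, W.act_span, map_one, one_mul, W.map_id]

/-- A correspondence in `CH^(dim Y)(Y × Y)` which acts as the identity on finitely many classes
which come from given varieties, and which maps all cycles to cycles which come from them. -/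
lemma exists_projector (hR : Jan.HomEqNum W) {Y : 𝒱.Obj} (Φ : MorClass Y)
    (T : Finset (W.H Y)) (hT : ∀ v ∈ T, ∃ (D : 𝒱.Obj) (f : D ⟶ Y) (z : W.H D), Φ D f ∧
      W.push f z = v) :
    ∃ p ∈ C.gr (Y.prod Y) Y.dim, (∀ v ∈ T, W.act p v = v) ∧
      (∀ z, C.act p z ∈ pushCH C Φ) := by
  classical
  induction T using Finset.induction_on with
  | empty =>
    refine ⟨0, Submodule.zero_mem _, by simp, fun z => ?_⟩
    rw [C.act_zero]
    exact Submodule.zero_mem _
  | insert v T hj ih =>
    obtain ⟨p, hp, h1, h2⟩ := ih fun v hv => hT v (Finset.mem_insert_of_mem hv)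
    obtain ⟨D, f, a, hΦ, hfa⟩ := hT v (Finset.mem_insert_self v T)
    have hp' : C.diagC Y - p ∈ C.gr (Y.prod Y) Y.dim := Submodule.sub_mem _ (C.diagC_mem Y) hp
    have hγ : C.comp (C.graph f) (C.diagC Y - p) ∈ C.gr (D.prod Y) Y.dim :=
      C.comp_mem (C.graph_mem f) hp' rfl
    obtain ⟨σ, hσ, hs⟩ := Jan.exists_genInverse hR (p := Y.dim) (q := D.dim) (by omega) hγ
    have hγa : ∀ a, W.act (C.comp (C.graph f) (C.diagC Y - p)) a =
        W.push f a - W.act p (W.push f a) := by
      intro a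
      rw [W.act_comp _ hp', W.act_sub, LinearMap.sub_apply, W.act_diagC, act_graph]
    have hσ' : σ ∈ C.gr (Y.prod D) D.dim := hσ
    refine ⟨p + C.comp (C.comp (C.diagC Y - p) σ) (C.comp (C.graph f) (C.diagC Y - p)),
      ?_, ?_, ?_⟩
    · refine Submodule.add_mem _ hp ?_
      exact C.comp_mem (C.comp_mem (r := D.dim) hp' hσ' (by omega)) hγ (by omega)
    · have key : ∀ v, W.act (p + C.comp (C.comp (C.diagC Y - p) σ)
          (C.comp (C.graph f) (C.diagC Y - p))) v =
          W.act p v + W.act (C.comp (C.graph f) (C.diagC Y - p)) (W.act σ (v - W.act p v)) := by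
        intro v
        rw [W.act_add, LinearMap.add_apply, W.act_comp _ hγ, W.act_comp _ hσ', W.act_sub,
          LinearMap.sub_apply, W.act_diagC]
      intro l hl
      rw [key]
      rw [Finset.mem_insert] at hl
      rcases hl with rfl | hl
      · rw [← hfa, ← hγa, hs, hγa]
        abel
      · rw [h1 l hl, sub_self, map_zero, map_zero, add_zero]
    · intro z
      rw [C.act_add, LinearMap.add_apply, C.act_comp, C.act_comp (C.graph f), C.act_sub,
        LinearMap.sub_apply, C.act_diagC, C.act_graph]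
      refine Submodule.add_mem _ (h2 z) (Submodule.sub_mem _ ?_ (h2 _))
      exact Submodule.subset_span ⟨D, f, hΦ, _, rfl⟩

/-- The same for all the classes simultaneously. -/
lemma exists_projector' (hR : Jan.HomEqNum W) {Y : 𝒱.Obj} (Φ : MorClass Y) :
    ∃ p ∈ C.gr (Y.prod Y) Y.dim, (∀ v ∈ pushH W Φ, W.act p v = v) ∧
      (∀ z, C.act p z ∈ pushCH C Φ) := by
  have := (W.isPoincareAlgebra Y).finite
  have hfg : (pushH W Φ).FG := @IsNoetherian.noetherian W.K (W.H Y) _ _ _ _ (pushH W Φ)
  obtain ⟨T, hT, hspan⟩ := Submodule.fg_span_iff_fg_span_finset_subset _ |>.1 hfg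
  obtain ⟨p, hp, h1, h2⟩ := exists_projector hR Φ T fun v hv => by
    obtain ⟨D, f, h, z, hz⟩ := hT hv
    exact ⟨D, f, z, h, hz⟩
  refine ⟨p, hp, fun v hv => ?_, h2⟩
  rw [pushH, spanH, hspan] at hv
  refine Submodule.span_induction (p := fun v _ => W.act p v = v) ?_ ?_ ?_ ?_ hv
  · exact fun v hv => h1 v hv
  · exact map_zero _
  · intro a b _ _ ha hb
    rw [map_add, ha, hb]
  · intro c a _ ha
    rw [map_smul, ha]

end Pool.Agent.H837.AJ
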