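import Pool.Graph.R_pool_sql_team_seeded_47a924f7.T6.H15.BB.Middle
import Pool.Agent.H837.AJ.Proj

/-!
# Eigenvectors of degree operators and spreading out
-/

open CategoryTheory CategoryTheory.Limits AlgebraicGeometry Polynomial
open Pool.Agent.H914 Pool.Agent.H914.VarClass Pool.Agent.H914.VarClass.Obj Pool.Agent.R903
open Pool.Agent.T6.H15.BB

universe u v w u' v' w' t

namespace Pool.Agent.H837.AJ

lemma aeval_comm {M : Type*} {N : Type*} [AddCommGroup M] [Module ℚ M] [AddCommGroup N]
    [Module ℚ N] (f : M →ₗ[ℚ] N) (A : M →ₗ[ℚ] M) (B : N →ₗ[ℚ] N) (h : ∀ z, f (A z) = B (f z))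
    (p : ℚ[X]) (z : M) : f (aeval A p z) = aeval B p (f z) := by
  induction p using Polynomial.induction_on' with
  | add p q hp hq => rw [map_add, map_add, LinearMap.add_apply, LinearMap.add_apply, map_add, hp, hq]
  | monomial n a =>
    rw [aeval_monomial, aeval_monomial, Module.End.mul_apply, Module.End.mul_apply,
      Module.algebraMap_end_apply, Module.algebraMap_end_apply, map_smul]
    congr 1
    induction n with
    | zero => simp
    | succ n ih => rw [pow_succ', pow_succ', Module.End.mul_apply, Module.End.mul_apply, h, ih]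

section Base

variable {k : Type u} [Field k] {𝒱 : VarClass k} {C : ChowTheory.{u, v} 𝒱}
  {W : WeilTheory.{u, v, w} C}

lemma actH_X_sub_C {X : 𝒱.Obj} (d : C.CH (X.prod X)) (c : ℚ) (v : W.H X) :
    W.act (polyC C d (Polynomial.X - Polynomial.C c)) v = W.act d v - (c : W.K) • v := by
  rw [polyC_sub, polyC_X, polyC_C, W.act_sub, W.act_smul, LinearMap.sub_apply,
    LinearMap.smul_apply, W.act_diagC]

/-- the polynomial with the roots `c - l`, `a ≤ l ≤ b` -/
noncomputable def rootPoly (c : ℚ) (a b : ℕ) : ℚ[X] :=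
  ∏ l ∈ Finset.Ico a (b + 1), (Polynomial.X - Polynomial.C (c - l))

lemma eval_rootPoly_ne_zero {c x : ℚ} {a b : ℕ}
    (h : ∀ l, a ≤ l → l ≤ b → x ≠ c - l) : (rootPoly c a b).eval x ≠ 0 := by
  rw [rootPoly, eval_prod, Finset.prod_ne_zero_iff]
  intro l hl
  rw [Finset.mem_Ico] at hl
  rw [eval_sub, eval_X, eval_C]
  exact sub_ne_zero.2 (h l hl.1 (by omega))

/-- A polynomial in `ε` maps a step of the Leray filtration to the last one. -/
lemma rootPoly_mem {Y : 𝒱.Obj} {ε : C.CH (Y.prod Y)} (hε : ε ∈ C.gr (Y.prod Y) Y.dim)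
    {gr : ℕ → Submodule W.K (W.H Y)} {N : Submodule W.K (W.H Y)} {b : ℕ}
    {L : ℕ → ℕ → Submodule W.K (W.H Y)} (hL : IsLeray gr N (W.act ε) b L) (m : ℕ) (n : ℕ) :
    ∀ a, b + 1 ≤ a + n → ∀ v ∈ L m a, W.act (polyC C ε (rootPoly m a b)) v ∈ N := by
  have hanti : ∀ a c, a ≤ c → L m c ≤ L m a := by
    intro a c hac
    induction c, hac using Nat.le_induction with
    | base => exact le_rfl
    | succ c _ ih => exact (hL.anti m c).trans ih
  induction n with
  | zero =>
    intro a ha v hv
    rw [rootPoly, Finset.Ico_eq_empty (by omega), Finset.prod_empty, polyC_one, W.act_diagC]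
    exact hL.top m (hanti _ _ (by omega) hv)
  | succ n ih =>
    intro a ha v hv
    by_cases hab : b + 1 ≤ a
    · rw [rootPoly, Finset.Ico_eq_empty (by omega), Finset.prod_empty, polyC_one, W.act_diagC]
      exact hL.top m (hanti _ _ hab hv)
    · have h1 := ih (a + 1) (by omega) _ (hL.step m a v hv)
      rw [rootPoly, Finset.prod_eq_prod_Ico_succ_bot (by omega), polyC_mul',
        W.act_comp _ (polyC_mem hε _), actH_X_sub_C]
      rw [rootPoly] at h1
      push_cast
      exact h1

/-- A polynomial in `ε` preserves the steps of the Leray filtration, and acts as a number modulo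
the next step. -/
lemma poly_mem {Y : 𝒱.Obj} {ε : C.CH (Y.prod Y)} (hε : ε ∈ C.gr (Y.prod Y) Y.dim)
    {gr : ℕ → Submodule W.K (W.H Y)} {N : Submodule W.K (W.H Y)} {b : ℕ}
    {L : ℕ → ℕ → Submodule W.K (W.H Y)} (hL : IsLeray gr N (W.act ε) b L) {m a : ℕ}
    (P : ℚ[X]) {v : W.H Y} (hv : v ∈ L m a) :
    W.act (polyC C ε P) v - ((P.eval ((m : ℚ) - a) : ℚ) : W.K) • v ∈ L m (a + 1) := by
  have hstab : ∀ v ∈ L m (a + 1), W.act ε v ∈ L m (a + 1) := by
    intro v hv
    have h1 := hL.anti m (a + 1) (hL.step m (a + 1) v hv)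
    have h2 := Submodule.add_mem _ h1 (Submodule.smul_mem _ ((m : W.K) - ((a + 1 : ℕ) : W.K)) hv)
    rwa [sub_add_cancel] at h2
  induction P using Polynomial.induction_on' with
  | add p q hp hq =>
    rw [polyC_add, W.act_add, LinearMap.add_apply, eval_add, Rat.cast_add, add_smul]
    have := Submodule.add_mem _ hp hq
    rwa [sub_add_sub_comm] at this
  | monomial n c =>
    have key : W.act (polyC C ε (Polynomial.X ^ n)) v - (((m : ℚ) - a) ^ n : W.K) • v ∈
        L m (a + 1) := by
      induction n with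
      | zero =>
        rw [pow_zero, polyC_one, W.act_diagC, pow_zero, one_smul, sub_self]
        exact Submodule.zero_mem _
      | succ n ih =>
        have h1 := hstab _ ih
        have h2 := Submodule.smul_mem _ ((((m : ℚ) - a) ^ n : W.K)) (hL.step m a v hv)
        rw [pow_succ, polyC_mul', polyC_X, W.act_comp _ hε]
        rw [map_sub, map_smul] at h1
        rw [smul_sub, smul_smul] at h2
        have h3 := Submodule.add_mem _ h1 h2
        rw [sub_add_sub_cancel] at h3
        rw [pow_succ]
        push_cast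
        push_cast at h3
        exact h3
    rw [← mul_one c, ← smul_eq_mul, ← Polynomial.smul_monomial, polyC_smul,
      Polynomial.monomial_one_right_eq_X_pow, W.act_smul, LinearMap.smul_apply,
      Polynomial.eval_smul, eval_pow, eval_X, smul_eq_mul]
    have := Submodule.smul_mem _ (c : W.K) key
    rw [smul_sub, smul_smul] at this
    push_cast
    push_cast at this
    exact this

end Base

end Pool.Agent.H837.AJ
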